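import Pool.Agent.V11307.S7.Rec

set_option autoImplicit false

namespace Pool.Agent.Results.MP_d51828_nt.QOne

/-- The rational sequence given by `a_1 = 2` and
`(2n+1)^3 a_n = 32 n^3 a_{n-1} + (21n^3+22n^2+8n+1) C(2n-1,n)^4` for `n ≥ 2` consists of positive integers. -/
theorem result (a : ℕ → ℚ) (h1 : a 1 = 2)
    (h : ∀ n : ℕ, 2 ≤ n → (2 * (n : ℚ) + 1) ^ 3 * a n = 32 * (n : ℚ) ^ 3 * a (n - 1) +
      (21 * (n : ℚ) ^ 3 + 22 * (n : ℚ) ^ 2 + 8 * n + 1) * ((2 * n - 1).choose n : ℚ) ^ 4) :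
    ∀ n : ℕ, 1 ≤ n → ∃ z : ℤ, 0 < z ∧ a n = z :=
  V11307.S7.a_int h1 h

end Pool.Agent.Results.MP_d51828_nt.QOne
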